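import Mathlib
import Pool.Agent.V8H79.NP.Top
import Pool.Agent.V8H79.NP.Omega

/-!
# Normality of products with a compact factor: a consistent negative answer

Let `N(C)` be the class of the spaces `X` such that `X × C` is normal. The question is whether for
each compact space `C` there is a cardinal `λ` such that `N(C)` is the class of the
`w(C)`-collectionwise normal, `< λ`-paracompact spaces. We show that this is not provable: under
diamond there is an (infinite) compact space `C`, of countable tightness, such that for no cardinals
`κ` and `λ` the class `N(C)` is the class of the `κ`-collectionwise normal, `< λ`-paracompact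
spaces. Diamond holds in a forcing extension.

Proof. Diamond gives a locally compact topology on `ω₁` (with open initial segments, of the type of
Ostaszewski's space) such that each closed set is either compact or contains a final segment of `ω₁`,
and each unbounded set has a countable subset whose closure contains a final segment. This
space `K` is countably compact and collectionwise normal. Let `C = K ∪ {∞}`.

* The product `K × C` is not normal: let `O` be a neighbourhood of the diagonal with closure disjoint
  from `K × {∞}`. All sections of `O` are bounded, and a countable initial segment of `K` is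
  dense, so `K` would be bounded. So `λ > ω₁`, as `K` is countably paracompact and collectionwise
  normal.
* `C` has countable tightness, so `ω₁ × C` is normal (closing off argument). But `ω₁` is not
  `ω₁`-paracompact. So `λ ≤ ω₁`.
-/

set_option autoImplicit false

open Set Topology Cardinal

namespace Pool.Agent.Results.MP_c4305c_gt.ConsistentlyNo

open Pool.Agent.Helper292.ForceCH (Om OmegaOnePreserved DiamondHolds)

/-! ### Diamond -/

/-- `C` is a closed unbounded subset of `ω₁` (the sentence named by `IsClubName`) -/
def IsClub (C : Om → Prop) : Prop :=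
  (∀ a : Om, ∃ b : Om, a < b ∧ C b) ∧
    ∀ a : Om, (∃ b, b < a) → (∀ b : Om, b < a → ∃ c : Om, (b < c ∧ c < a) ∧ C c) → C a

/-- Jensen's diamond: the sentence which `DiamondHolds P` says is forced, evaluated in the
universe -/
def Diamond : Prop :=
  ∃ A : Om → Om → Prop, ∀ S : Om → Prop, ∀ C : Om → Prop,
    IsClub C → ∃ a : Om, C a ∧ ∀ b : Om, b < a → (S b ↔ A a b)

/-! ### The notions of the problem -/

/-- `X` is `< lam`-paracompact: every open cover indexed by a set of cardinality less than `lam` has
a locally finite open refinement. -/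
def LessParacompact (lam : Cardinal.{0}) (X : Type) [TopologicalSpace X] : Prop :=
  ∀ (ι : Type) (U : ι → Set X), #ι < lam → (∀ i, IsOpen (U i)) → (⋃ i, U i) = Set.univ →
    ∃ V : ι → Set X, (∀ i, IsOpen (V i)) ∧ (∀ i, V i ⊆ U i) ∧ (⋃ i, V i) = Set.univ ∧ LocallyFinite V

/-- `X` is `κ`-collectionwise normal: `X` is normal, and discrete families of at most `κ` closed sets
of `X` can be separated by pairwise disjoint open sets. -/
def CollectionwiseNormal (κ : Cardinal.{0}) (X : Type) [TopologicalSpace X] : Prop :=
  NormalSpace X ∧ ∀ (ι : Type) (F : ι → Set X), #ι ≤ κ → (∀ i, IsClosed (F i)) →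
    (∀ x : X, ∃ W ∈ 𝓝 x, ∀ i j, (W ∩ F i).Nonempty → (W ∩ F j).Nonempty → i = j) →
    ∃ V : ι → Set X, (∀ i, IsOpen (V i)) ∧ (∀ i, F i ⊆ V i) ∧ Pairwise (Function.onFun Disjoint V)

/-- `C` has countable tightness: each point of the closure of a set `B` lies in the closure of a
countable subset of `B`. -/
def CountablyTight (C : Type) [TopologicalSpace C] : Prop :=
  ∀ (B : Set C) (p : C), p ∈ closure B → ∃ B' ⊆ B, B'.Countable ∧ p ∈ closure B'

theorem under_diamond (h : Diamond) : ∃ (C : Type) (_ : TopologicalSpace C),
    CompactSpace C ∧ T2Space C ∧ Infinite C ∧ CountablyTight C ∧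
    ∀ κ lam : Cardinal.{0}, ∃ (X : Type) (_ : TopologicalSpace X), T1Space X ∧
      ¬ (NormalSpace (X × C) ↔ LessParacompact lam X ∧ CollectionwiseNormal κ X) := by
  classical
  obtain ⟨A, hA⟩ := h
  have hG : Pool.Agent.V8H79.NP.Guess fun a => {b | b < a ∧ A a b} := by
    refine ⟨fun a b hb => hb.1, fun S C hC => ?_⟩
    obtain ⟨a, ha, h1⟩ := hA (fun b => b ∈ S) C hC
    refine ⟨a, ha, ?_⟩
    ext b
    constructor
    · rintro ⟨h2, h3⟩
      exact ⟨h3, (h1 b h3).1 h2⟩
    · rintro ⟨h2, h3⟩
      exact ⟨(h1 b h2).2 h3, h2⟩
  have hO := Pool.Agent.V8H79.NP.ost_mkU hG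
  set U := Pool.Agent.V8H79.NP.mkU fun a => {b | b < a ∧ A a b}
  have ht := hO.t2
  have hw := hO.wlc
  have htI : T2Space (Pool.Agent.Helper332.CPBTop.Sp Pool.Agent.V8H79.NP.II) :=
    Pool.Agent.Helper332.CPBTop.t2_Sp _ Pool.Agent.V8H79.NP.isSystem_II
  refine ⟨OnePoint (Pool.Agent.Helper332.CPBTop.Sp U), inferInstance, inferInstance,
    inferInstance, ?_, Pool.Agent.V8H79.NP.tight hO, fun κ lam => ?_⟩
  · have h1 : Infinite (Pool.Agent.Helper332.CPBTop.Sp U) := inferInstanceAs (Infinite Om)
    exact Infinite.of_injective
      (fun x : Pool.Agent.Helper332.CPBTop.Sp U => (x : OnePoint _)) OnePoint.coe_injective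
  · rcases le_or_gt lam ℵ₁ with hl | hl
    · refine ⟨Pool.Agent.Helper332.CPBTop.Sp U, inferInstance, inferInstance, fun h1 => ?_⟩
      refine Pool.Agent.V8H79.NP.not_normal_prod hO (h1.2 ⟨?_, ?_, ?_⟩)
      · intro ι V hι hV hc
        have h2 : #ι ≤ ℵ₀ := by
          have h3 : #ι < Order.succ ℵ₀ := (hι.trans_le hl).trans_le succ_aleph0.ge
          exact Order.lt_succ_iff.1 h3
        have h3 : Countable ι := mk_le_aleph0_iff.1 h2
        obtain ⟨t, ht⟩ := Pool.Agent.V8H79.NP.finite_subcover hO V hV hc
        refine ⟨fun i => if i ∈ t then V i else ∅, fun i => ?_, fun i => ?_, ?_, ?_⟩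
        · dsimp only
          split_ifs
          · exact hV i
          · exact isOpen_empty
        · dsimp only
          split_ifs
          · exact subset_rfl
          · exact empty_subset _
        · refine eq_univ_of_forall fun x => ?_
          have h4 : x ∈ ⋃ i ∈ t, V i := by
            rw [ht]
            exact mem_univ _
          obtain ⟨i, hi, h5⟩ := mem_iUnion₂.1 h4
          refine mem_iUnion.2 ⟨i, ?_⟩
          rw [if_pos hi]
          exact h5
        · intro x
          refine ⟨Set.univ, Filter.univ_mem, t.finite_toSet.subset ?_⟩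
          rintro i ⟨y, hy, -⟩
          by_contra h4
          dsimp only at hy
          rw [if_neg (by simpa using h4)] at hy
          exact hy
      · exact Pool.Agent.V8H79.NP.normal_Sp hO
      · intro ι F _ hF hd
        exact Pool.Agent.V8H79.NP.cwn_Sp hO F hF hd
    · refine ⟨Pool.Agent.Helper332.CPBTop.Sp Pool.Agent.V8H79.NP.II, inferInstance, inferInstance,
        fun h1 => ?_⟩
      have h2 := (h1.1 (Pool.Agent.V8H79.NP.normal_omega (Pool.Agent.V8H79.NP.tight hO))).1
      obtain ⟨V, hV1, hV2, hV3, hV4⟩ := h2 Om Pool.Agent.V8H79.NP.II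
        (by
          have h3 : #Om = ℵ₁ := by simp
          rw [h3]
          exact hl)
        (fun a => Pool.Agent.Helper332.CPBTop.isOpen_U _ a)
        (eq_univ_of_forall fun x => mem_iUnion.2 ⟨Pool.Agent.V8H79.NP.ht x,
          Pool.Agent.V8H79.NP.isSystem_II.1 _⟩)
      exact Pool.Agent.V8H79.NP.not_paracompact_omega V hV2 hV3 hV4

/-- Diamond is forced by every condition of some notion of forcing which preserves `ω₁`, and
diamond implies that there is an infinite compact space `C` such that for all cardinals `κ` and
`lam` the class of the spaces `X` with normal product `X × C` is not the class of the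
`κ`-collectionwise normal, `< lam`-paracompact spaces. -/
theorem result :
    (∃ (P : Type) (_ : Preorder P), Nonempty P ∧
      ∀ p : P, p ∈ OmegaOnePreserved P ∧ p ∈ DiamondHolds P) ∧
    (Diamond → ∃ (C : Type) (_ : TopologicalSpace C), CompactSpace C ∧ T2Space C ∧ Infinite C ∧
      CountablyTight C ∧ ∀ κ lam : Cardinal.{0}, ∃ (X : Type) (_ : TopologicalSpace X), T1Space X ∧
        ¬ (NormalSpace (X × C) ↔ LessParacompact lam X ∧ CollectionwiseNormal κ X)) := by
  constructor
  · obtain ⟨P, i, h1, h2⟩ := Pool.Agent.Helper292.ForceCH.exists_forcing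
    exact ⟨P, i, h1, fun p => ⟨(h2 p).1, (h2 p).2.1⟩⟩
  · exact under_diamond

end Pool.Agent.Results.MP_c4305c_gt.ConsistentlyNo
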